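import Pool.Agent.H72.MT.LowerFin
import Pool.Agent.H72.MT.UpperB

set_option autoImplicit false

open Pool.Agent.H72.MT

/-- Q2 of MP_c90581_an for `1 < p < q ≤ 2` (all `d ≥ 1`) and for `p = 1 < q ≤ 2`, `d ≤ 2`; all `r > 0`, `1 ≤ θ < ∞`, all `d ≥ 1`. -/
theorem Pool.Agent.Results.MP_c90581_an.OrderB.result (d : ℕ) (hd : 1 ≤ d) (p q r θ : ℝ)
    (hp : 1 < p ∨ (p = 1 ∧ d ≤ 2)) (hpq : p < q) (hq : q ≤ 2) (hr : 0 < r) (hθ : 1 ≤ θ) :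
    ∃ c C : ℝ, 0 < c ∧ 0 < C ∧ ∀ m : ℕ, 2 ≤ m →
      ENNReal.ofReal (c * ((m : ℝ) ^ (-r) *
          (Real.log m) ^ (((d : ℝ) - 1) * max 0 (r + 1 / q - 1 / θ)))) ≤
        sigmaC m p (classB d q θ r) ∧
      sigmaC m p (classB d q θ r) ≤
        ENNReal.ofReal (C * ((m : ℝ) ^ (-r) *
          (Real.log m) ^ (((d : ℝ) - 1) * max 0 (r + 1 / q - 1 / θ)))) := by
  have hp1 : 1 ≤ p := by
    rcases hp with h | h
    · exact h.le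
    · exact h.1.ge
  obtain ⟨c, hc, h1⟩ := lowerB d hd p q r θ hp hpq hq hr hθ
  obtain ⟨C, hC, h2⟩ := upperB d hd q r θ (hp1.trans_lt hpq) hq hr hθ
  refine ⟨c, C, hc, hC, fun m hm => ⟨h1 m hm, ?_⟩⟩
  exact (sigmaC_mono_p m (by linarith) hpq.le _ (fun f hf => hf.1.1)).trans (h2 m hm)
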